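import Pool.Agent.P.MP_0dc862_nt.Pf.Cone

namespace Pool.Agent.P.MP_0dc862_nt.Pf

open Filter Topology IntermediateField

/-- A finite chain from `a` to `c` with steps in `G` that visits every point of `E`. -/
def Good (G : Set ℝ) (a c : ℝ) (E : Set ℝ) : Prop :=
  ∃ (r : ℕ) (d : ℕ → ℝ), d 0 = a ∧ d r = c ∧ (∀ i < r, d (i + 1) - d i ∈ G) ∧
    ∀ e ∈ E, ∃ l ≤ r, d l = e

theorem Good.trans {G : Set ℝ} {a b c : ℝ} {E F : Set ℝ} (h1 : Good G a b E) (h2 : Good G b c F) :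
    Good G a c (E ∪ F) := by
  obtain ⟨r, d, d0, dr, ds, dE⟩ := h1
  obtain ⟨r', d', d0', dr', ds', dE'⟩ := h2
  have key : ∀ i, r ≤ i → (if i ≤ r then d i else d' (i - r)) = d' (i - r) := fun i hi => by
    split_ifs with h
    · obtain rfl : i = r := le_antisymm h hi
      rw [Nat.sub_self, dr, d0']
    · rfl
  refine ⟨r + r', fun i => if i ≤ r then d i else d' (i - r), by simp [d0], ?_, fun i hi => ?_,
    fun e he => ?_⟩
  · simp only []
    rw [key _ (by omega), Nat.add_sub_cancel_left, dr']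
  · simp only []
    by_cases h : i < r
    · rw [if_pos (by omega), if_pos h.le]; exact ds i h
    · rw [key _ (by omega), key _ (by omega), show i + 1 - r = i - r + 1 by omega]
      exact ds' _ (by omega)
  · rcases he with he | he
    · obtain ⟨l, hl, e⟩ := dE e he
      exact ⟨l, by omega, by simp only []; rw [if_pos hl, e]⟩
    · obtain ⟨l, hl, e⟩ := dE' e he
      exact ⟨r + l, by omega, by
        simp only []; rw [key _ (by omega), Nat.add_sub_cancel_left, e]⟩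

theorem Good.mono {G : Set ℝ} {a c : ℝ} {E F : Set ℝ} (h : Good G a c E) (hF : F ⊆ E) :
    Good G a c F := by
  obtain ⟨r, d, d0, dr, ds, dE⟩ := h
  exact ⟨r, d, d0, dr, ds, fun e he => dE e (hF he)⟩

theorem good_of_mem {G : Set ℝ} {x : ℝ} (hx : x ∈ AddSubmonoid.closure G) :
    ∀ a, Good G a (a + x) {a + x} := by
  induction hx using AddSubmonoid.closure_induction with
  | mem x hx =>
    intro a
    refine ⟨1, fun i => a + i * x, by simp, by simp, fun i hi => ?_, fun e he => ⟨1, le_rfl, ?_⟩⟩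
    · obtain rfl : i = 0 := by omega
      simpa using hx
    · rw [Set.mem_singleton_iff.1 he]; simp
  | zero =>
    intro a
    exact ⟨0, fun _ => a, rfl, by simp, fun i hi => by omega,
      fun e he => ⟨0, le_rfl, by rw [Set.mem_singleton_iff.1 he]; simp⟩⟩
  | add x y _ _ hx hy =>
    intro a
    have := ((hx a).trans (hy (a + x))).mono Set.subset_union_right
    rwa [add_assoc] at this

theorem good_finset {G : Set ℝ} (A : AddSubgroup ℝ)
    (hA : ∀ x ∈ A, 0 < x → x ∈ AddSubmonoid.closure G) {a : ℝ} (ha : a ∈ A) (E : Finset ℝ) :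
    (∀ e ∈ E, e ∈ A ∧ a ≤ e) → ∀ c ∈ A, a ≤ c → (∀ e ∈ E, e ≤ c) → Good G a c E := by
  have step : ∀ b ∈ A, ∀ c ∈ A, b ≤ c → Good G b c {c} := fun b hb c hc h => by
    have : c - b ∈ AddSubmonoid.closure G := by
      rcases h.eq_or_lt with h | h
      · rw [h, sub_self]; exact zero_mem _
      · exact hA _ (A.sub_mem hc hb) (sub_pos.2 h)
    simpa using good_of_mem this b
  induction E using Finset.induction_on_max with
  | empty => exact fun _ c hc h _ => (step a ha c hc h).mono (by simp)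
  | insert e s hs ih =>
    intro hE c hc _ hle
    have he := hE e (Finset.mem_insert_self _ _)
    have h1 := ih (fun x hx => hE x (Finset.mem_insert_of_mem hx)) e he.1 he.2
      fun x hx => (hs x hx).le
    have h2 := step e he.1 e he.1 le_rfl
    have h3 := step e he.1 c hc (hle e (Finset.mem_insert_self _ _))
    refine ((h1.trans h2).trans h3).mono fun x hx => ?_
    rcases Finset.mem_insert.1 (Finset.mem_coe.1 hx) with h | h
    · exact Or.inl (Or.inr h)
    · exact Or.inl (Or.inl h)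

variable {β : ℝ}

theorem mant (h1 : 1 < β) {y : ℝ} (hy : 0 < y) : ∃ k : ℤ, 1 ≤ y * β ^ k ∧ y * β ^ k < β := by
  obtain ⟨n, hn, hn'⟩ := exists_mem_Ico_zpow hy h1
  have b0 : 0 < β := by linarith
  have bn : 0 < β ^ n := zpow_pos b0 n
  refine ⟨-n, ?_, ?_⟩
  · rw [zpow_neg, ← div_eq_mul_inv, one_le_div bn]; exact hn
  · rw [zpow_neg, ← div_eq_mul_inv, div_lt_iff₀ bn]
    rw [zpow_add_one₀ b0.ne'] at hn'
    linarith

/-- The chain of digits: every gap is a digit divided by a positive power of `β`. -/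
theorem exists_chain (h1 : 1 < β) (hint : IsIntegral ℤ β)
    (hP : ∀ z ∈ (minpoly ℤ β).aroots ℂ, z ≠ (β : ℂ) → ‖z‖ < β) (F : Finset ℝ)
    (hF : ∀ x ∈ F, x ∈ ℚ⟮β⟯ ∧ 0 < x ∧ x < 1) :
    ∃ (r : ℕ) (d : ℕ → ℝ), d 0 = 1 ∧ d r = β ∧ (∀ i ≤ r, d i ∈ ℚ⟮β⟯) ∧
      (∀ i < r, 0 < d (i + 1) - d i ∧ ∃ m : ℕ, ∃ l < r, (d (i + 1) - d i) * β ^ (m + 1) = d l) ∧
      ∀ x ∈ F, ∃ m : ℕ, ∃ l < r, x * β ^ (m + 1) = d l := by
  classical
  have hq : IsIntegral ℚ β := hint.tower_top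
  have b0 : 0 < β := by linarith
  have bK : β ∈ ℚ⟮β⟯ := mem_adjoin_simple_self ℚ β
  obtain ⟨E, hE, hcone⟩ := cone h1 hint hq hP
  obtain ⟨q, q0, hqF⟩ : ∃ q : ℕ, 0 < q ∧ ∀ x ∈ F, ∃ γ : ℚ⟮β⟯, Intg hq γ ∧ (γ : ℝ) = q * x := by
    clear hcone
    induction F using Finset.induction_on with
    | empty => exact ⟨1, one_pos, by simp⟩
    | insert x s _ ih =>
      obtain ⟨q, q0, h⟩ := ih fun y hy => hF y (Finset.mem_insert_of_mem hy)
      obtain ⟨q', q0', h'⟩ := exists_den hq ⟨x, (hF x (Finset.mem_insert_self _ _)).1⟩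
      refine ⟨q * q', by positivity, fun y hy => ?_⟩
      rcases Finset.mem_insert.1 hy with rfl | hy
      · exact ⟨_, h'.zsmul q, by push_cast; ring⟩
      · obtain ⟨γ, hγ, e⟩ := h y hy
        exact ⟨_, hγ.zsmul q', by push_cast; rw [e]; ring⟩
  have qR : (0 : ℝ) < q := by exact_mod_cast q0
  set g := AdjoinSimple.gen ℚ β with hg
  have gβ : (g : ℝ) = β := rfl
  let A : AddSubgroup ℝ :=
    { carrier := {x | ∃ (j : ℕ) (γ : ℚ⟮β⟯), Intg hq γ ∧ (γ : ℝ) = q * x * β ^ j}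
      zero_mem' := ⟨0, 0, Intg.zero hq, by simp⟩
      add_mem' := by
        rintro x y ⟨j, γ, hγ, e⟩ ⟨j', γ', hγ', e'⟩
        refine ⟨j + j', γ * g ^ j' + γ' * g ^ j, (hγ.mul hint (Intg.pow hint hq _)).add
          (hγ'.mul hint (Intg.pow hint hq _)), ?_⟩
        push_cast; rw [e, e', gβ]; ring
      neg_mem' := by
        rintro x ⟨j, γ, hγ, e⟩
        exact ⟨j, 0 - γ, (Intg.zero hq).sub hγ, by push_cast; rw [e]; ring⟩ }
  have Az : ∀ x ∈ A, ∀ k : ℤ, x * β ^ k ∈ A := by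
    rintro x ⟨j, γ, hγ, e⟩ k
    obtain ⟨n, rfl | rfl⟩ := k.eq_nat_or_neg
    · exact ⟨j, γ * g ^ n, hγ.mul hint (Intg.pow hint hq _), by
        push_cast; rw [e, gβ, zpow_natCast]; ring⟩
    · exact ⟨j + n, γ, hγ, by rw [e, zpow_neg, zpow_natCast, pow_add]; field_simp⟩
  have A1 : (1 : ℝ) ∈ A := ⟨0, _, (Intg.pow hint hq 0).zsmul q, by simp⟩
  have AK : ∀ x ∈ A, x ∈ ℚ⟮β⟯ := by
    rintro x ⟨j, γ, -, e⟩
    have : x = γ / (q * β ^ j) := by rw [e]; field_simp
    rw [this]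
    exact div_mem γ.2 (mul_mem (_root_.natCast_mem _ _) (pow_mem bK _))
  let Y : Finset ℝ := E.image (fun e => e / q) ∪ F
  have hY : ∀ y ∈ Y, y ∈ A ∧ 0 < y := fun y hy => by
    rcases Finset.mem_union.1 hy with hy | hy
    · obtain ⟨e, he, rfl⟩ := Finset.mem_image.1 hy
      obtain ⟨e0, γ, hγ, h⟩ := hE e he
      exact ⟨⟨0, γ, hγ, by rw [h]; field_simp⟩, by positivity⟩
    · obtain ⟨γ, hγ, h⟩ := hqF y hy
      exact ⟨⟨0, γ, hγ, by rw [h]; simp⟩, (hF y hy).2.1⟩
  have hk : ∀ y : ℝ, ∃ k : ℤ, 0 < y → 1 ≤ y * β ^ k ∧ y * β ^ k < β := fun y => by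
    by_cases h : 0 < y
    · obtain ⟨k, hk⟩ := mant h1 h
      exact ⟨k, fun _ => hk⟩
    · exact ⟨0, fun h' => absurd h' h⟩
  choose k hk using hk
  let Mn : Finset ℝ := Y.image fun y => y * β ^ k y
  have hMn : ∀ e ∈ Mn, e ∈ A ∧ 1 ≤ e ∧ e < β := fun e he => by
    obtain ⟨y, hy, rfl⟩ := Finset.mem_image.1 he
    exact ⟨Az y (hY y hy).1 _, hk y (hY y hy).2⟩
  let G : Set ℝ := {x | ∃ m : ℕ, x * β ^ (m + 1) ∈ Mn}
  have hG : ∀ x ∈ A, 0 < x → x ∈ AddSubmonoid.closure G := by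
    rintro x ⟨j, γ, hγ, e⟩ x0
    have h2 : ∀ᶠ M : ℕ in atTop, ∀ y ∈ Y, 1 - k y ≤ M := by
      rw [eventually_all_finset]
      intro y _
      exact (tendsto_natCast_atTop_atTop (R := ℤ)).eventually_ge_atTop _
    obtain ⟨M, hM, hM'⟩ := ((hcone γ hγ (by rw [e]; positivity)).and h2).exists
    have key : ∀ z ∈ AddSubmonoid.closure (E : Set ℝ),
        z / (q * β ^ (j + M)) ∈ AddSubmonoid.closure G := by
      intro z hz
      induction hz using AddSubmonoid.closure_induction with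
      | mem z hz =>
        have hy : z / q ∈ Y := Finset.mem_union_left _ (Finset.mem_image_of_mem _ hz)
        have := hM' _ hy
        obtain ⟨m, hm⟩ : ∃ m : ℕ, (m : ℤ) + 1 = j + M + k (z / q) :=
          ⟨(j + M + k (z / q) - 1).toNat, by omega⟩
        refine AddSubmonoid.subset_closure ⟨m, Finset.mem_image.2 ⟨_, hy, ?_⟩⟩
        rw [← zpow_natCast β (m + 1), Nat.cast_add, Nat.cast_one, hm, zpow_add₀ b0.ne',
          ← Nat.cast_add, zpow_natCast]
        field_simp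
      | zero => rw [zero_div]; exact zero_mem _
      | add a b _ _ ha hb => rw [add_div]; exact add_mem ha hb
    convert key _ hM using 1
    rw [e, pow_add]; field_simp
  obtain ⟨r, d, d0, dr, ds, dE⟩ := good_finset A hG A1 Mn (fun e he => ⟨(hMn e he).1, (hMn e he).2.1⟩)
    β (by simpa using Az 1 A1 1) h1.le fun e he => (hMn e he).2.2.le
  have vis : ∀ e ∈ Mn, ∃ l < r, e = d l := fun e he => by
    obtain ⟨l, hl, h⟩ := dE e he
    refine ⟨l, lt_of_le_of_ne hl ?_, h.symm⟩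
    rintro rfl
    have := (hMn e he).2.2
    linarith
  refine ⟨r, d, d0, dr, fun i hi => ?_, fun i hi => ?_, fun x hx => ?_⟩
  · induction i with
    | zero => rw [d0]; exact one_mem _
    | succ i ih =>
      obtain ⟨m, hm⟩ := ds i hi
      have h := div_mem (AK _ (hMn _ hm).1) (pow_mem bK (m + 1))
      rw [mul_div_cancel_right₀ _ (by positivity)] at h
      simpa using add_mem h (ih (by omega))
  · obtain ⟨m, hm⟩ := ds i hi
    refine ⟨?_, m, vis _ hm⟩
    have := (hMn _ hm).2.1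
    exact (mul_pos_iff_of_pos_right (by positivity : 0 < β ^ (m + 1))).1 (by linarith)
  · have hy : x ∈ Y := Finset.mem_union_right _ hx
    have h2 := (hk x (hF x hx).2.1).1
    have kp : 0 < k x := by
      by_contra h
      have : β ^ k x ≤ 1 := zpow_le_one_of_nonpos₀ h1.le (not_lt.1 h)
      have := (hF x hx).2
      nlinarith
    obtain ⟨m, hm⟩ : ∃ m : ℕ, k x = ((m + 1 : ℕ) : ℤ) := ⟨(k x - 1).toNat, by omega⟩
    refine ⟨m, vis _ (Finset.mem_image.2 ⟨x, hy, ?_⟩)⟩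
    rw [hm, zpow_natCast]

end Pool.Agent.P.MP_0dc862_nt.Pf
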