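import Mathlib

namespace Pool.Agent.P.MP_0dc862_nt.Pf

open Filter Topology IntermediateField

theorem split_mem {ι : Type*} [Fintype ι] (v : ι → ℝ) (u : ℝ) (c : ℕ) (S : AddSubmonoid ℝ)
    (hS : ∀ e : ι → ℤ, (∀ i, |e i| ≤ c) → u + ∑ i, e i * v i ∈ S) :
    ∀ (m : ℕ) (s : ι → ℤ), (∀ i, |s i| ≤ c * m) → m * u + ∑ i, s i * v i ∈ S := by
  intro m
  induction m with
  | zero =>
    intro s hs
    have : ∀ i, s i = 0 := fun i => by
      have := hs i
      simpa using this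
    simp [this]
  | succ m ih =>
    intro s hs
    have h0 : (0 : ℤ) ≤ c * m := by positivity
    have h1 : ∀ i, |max (-(c : ℤ)) (min c (s i))| ≤ c := fun i => by
      rw [abs_le]; omega
    have h2 : ∀ i, |s i - max (-(c : ℤ)) (min c (s i))| ≤ c * m := fun i => by
      have := hs i
      rw [abs_le] at this ⊢
      push_cast at this
      rw [mul_add, mul_one] at this
      omega
    have h := S.add_mem (hS _ h1) (ih _ h2)
    convert h using 1
    simp only [Int.cast_sub, sub_mul, Finset.sum_sub_distrib]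
    push_cast
    ring

variable {β : ℝ}

/-- Coordinates of `γ β ^ n` grow along the dominant direction. -/
theorem coord_lim (h1 : 1 < β) (hint : IsIntegral ℤ β)
    (hP : ∀ z ∈ (minpoly ℤ β).aroots ℂ, z ≠ (β : ℂ) → ‖z‖ < β) (φ : ℚ⟮β⟯ →ₗ[ℚ] ℚ) :
    ∃ v : ℝ, ∀ γ : ℚ⟮β⟯, Tendsto (fun n : ℕ => (φ (γ * AdjoinSimple.gen ℚ β ^ n) : ℝ) / β ^ n)
      atTop (𝓝 (γ * v)) := by
  classical
  have hq : IsIntegral ℚ β := hint.tower_top
  have := adjoin.finiteDimensional hq
  set g := AdjoinSimple.gen ℚ β with hg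
  set c := ((Algebra.traceForm ℚ ℚ⟮β⟯).toDual (traceForm_nondegenerate ℚ ℚ⟮β⟯)).symm φ with hc
  have hφ : ∀ x, φ x = Algebra.trace ℚ ℚ⟮β⟯ (c * x) := fun x => by
    rw [← Algebra.traceForm_apply, hc, LinearMap.BilinForm.apply_toDual_symm_apply]
  let σ0 : ℚ⟮β⟯ →ₐ[ℚ] ℂ := (Complex.ofRealAm.restrictScalars ℚ).comp (ℚ⟮β⟯).val
  have hσ0 : ∀ x : ℚ⟮β⟯, σ0 x = ((x : ℝ) : ℂ) := fun x => rfl
  have b0 : (0 : ℝ) < β := by linarith
  have bc : (β : ℂ) ≠ 0 := by exact_mod_cast b0.ne'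
  have hlt : ∀ σ : ℚ⟮β⟯ →ₐ[ℚ] ℂ, σ ≠ σ0 → ‖σ g‖ < β := by
    intro σ hσ
    refine hP _ ?_ ?_
    · rw [Polynomial.mem_aroots]
      refine ⟨minpoly.ne_zero hint, ?_⟩
      have h0 : Polynomial.aeval g (minpoly ℤ β) = 0 := by
        apply (algebraMap ℚ⟮β⟯ ℝ).injective
        rw [← Polynomial.aeval_algebraMap_apply, map_zero]
        exact minpoly.aeval ℤ β
      have := Polynomial.aeval_algHom_apply (σ.restrictScalars ℤ) g (minpoly ℤ β)
      rw [h0, map_zero] at this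
      exact this
    · intro h
      apply hσ
      apply (adjoin.powerBasis hq).algHom_ext
      exact h
  refine ⟨c, fun γ => ?_⟩
  have key : Tendsto (fun n : ℕ => ∑ σ : ℚ⟮β⟯ →ₐ[ℚ] ℂ, σ (c * γ) * (σ g / β) ^ n) atTop
      (𝓝 (∑ σ : ℚ⟮β⟯ →ₐ[ℚ] ℂ, if σ = σ0 then σ0 (c * γ) else 0)) := by
    refine tendsto_finsetSum _ fun σ _ => ?_
    split_ifs with h
    · subst h
      have : σ0 g / β = 1 := div_self bc
      simp [this]
    · have : ‖σ g / β‖ < 1 := by
        rw [norm_div, Complex.norm_real, Real.norm_of_nonneg b0.le, div_lt_one b0]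
        exact hlt σ h
      simpa using (tendsto_pow_atTop_nhds_zero_of_norm_lt_one this).const_mul (σ (c * γ))
  rw [Finset.sum_ite_eq' Finset.univ σ0, if_pos (Finset.mem_univ _), hσ0] at key
  have k2 := (Complex.continuous_re.tendsto _).comp key
  have e1 : (((c * γ : ℚ⟮β⟯) : ℝ) : ℂ).re = γ * c := by
    rw [Complex.ofReal_re]; push_cast; ring
  rw [e1] at k2
  refine k2.congr fun n => ?_
  have e2 : (∑ σ : ℚ⟮β⟯ →ₐ[ℚ] ℂ, σ (c * γ) * (σ g / β) ^ n)
      = (((φ (γ * g ^ n) : ℝ) / β ^ n : ℝ) : ℂ) := by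
    have := trace_eq_sum_embeddings ℂ (K := ℚ) (L := ℚ⟮β⟯) (x := c * (γ * g ^ n))
    rw [← hφ] at this
    push_cast
    rw [show ((φ (γ * g ^ n) : ℚ) : ℂ) = algebraMap ℚ ℂ (φ (γ * g ^ n)) from rfl, this,
      Finset.sum_div]
    refine Finset.sum_congr rfl fun σ _ => ?_
    simp only [map_mul, map_pow, div_pow]
    ring
  simp only [Function.comp_apply, e2, Complex.ofReal_re]

/-- Elements with integer coordinates in the power basis. -/
def Intg (hq : IsIntegral ℚ β) (γ : ℚ⟮β⟯) : Prop :=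
  ∀ i, IsIntegral ℤ ((adjoin.powerBasis hq).basis.repr γ i)

theorem gen_int (hint : IsIntegral ℤ β) : IsIntegral ℤ (AdjoinSimple.gen ℚ β) :=
  (isIntegral_algHom_iff ((ℚ⟮β⟯).val.restrictScalars ℤ) Subtype.val_injective).1 hint

theorem Intg.pow (hint : IsIntegral ℤ β) (hq : IsIntegral ℚ β) (n : ℕ) :
    Intg hq (AdjoinSimple.gen ℚ β ^ n) :=
  PowerBasis.repr_gen_pow_isIntegral (B := adjoin.powerBasis hq) (gen_int hint)
    (minpoly.isIntegrallyClosed_eq_field_fractions' ℚ (gen_int hint)) n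

theorem Intg.mul (hint : IsIntegral ℤ β) {hq : IsIntegral ℚ β} {x y : ℚ⟮β⟯} (hx : Intg hq x)
    (hy : Intg hq y) : Intg hq (x * y) :=
  PowerBasis.repr_mul_isIntegral (B := adjoin.powerBasis hq) (gen_int hint) hx hy
    (minpoly.isIntegrallyClosed_eq_field_fractions' ℚ (gen_int hint))

theorem Intg.add {hq : IsIntegral ℚ β} {x y : ℚ⟮β⟯} (hx : Intg hq x) (hy : Intg hq y) :
    Intg hq (x + y) := fun i => by
  rw [map_add]; exact (hx i).add (hy i)

theorem Intg.sub {hq : IsIntegral ℚ β} {x y : ℚ⟮β⟯} (hx : Intg hq x) (hy : Intg hq y) :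
    Intg hq (x - y) := fun i => by
  rw [map_sub]; exact (hx i).sub (hy i)

theorem Intg.zsmul {hq : IsIntegral ℚ β} {x : ℚ⟮β⟯} (hx : Intg hq x) (n : ℤ) :
    Intg hq (n * x) := fun i => by
  rw [← zsmul_eq_mul, map_zsmul]; exact (hx i).zsmul n

theorem Intg.zero (hq : IsIntegral ℚ β) : Intg hq 0 := fun i => by
  rw [map_zero]; exact isIntegral_zero

theorem exists_den (hq : IsIntegral ℚ β) (x : ℚ⟮β⟯) : ∃ q : ℕ, 0 < q ∧ Intg hq (q * x) := by
  classical
  set a := (adjoin.powerBasis hq).basis.repr x with ha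
  refine ⟨∏ i, (a i).den, Finset.prod_pos fun i _ => (a i).den_pos, fun i => ?_⟩
  rw [← nsmul_eq_mul, map_nsmul, ← ha, Finsupp.smul_apply, nsmul_eq_mul,
    ← Finset.prod_erase_mul _ _ (Finset.mem_univ i), Nat.cast_mul, mul_assoc,
    Rat.den_mul_eq_num]
  exact (isIntegral_algebraMap (R := ℤ) (A := ℚ)
    (x := ((∏ j ∈ Finset.univ.erase i, (a j).den : ℕ) : ℤ))).mul
      (isIntegral_algebraMap (R := ℤ) (A := ℚ) (x := (a i).num))

theorem coe_eq_sum (hq : IsIntegral ℚ β) (x : ℚ⟮β⟯) :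
    (x : ℝ) = ∑ i, ((adjoin.powerBasis hq).basis.repr x i : ℝ) * β ^ (i : ℕ) := by
  conv_lhs => rw [← (adjoin.powerBasis hq).basis.sum_repr x]
  rw [show ∀ y : ℚ⟮β⟯, (y : ℝ) = (ℚ⟮β⟯).val y from fun _ => rfl, map_sum]
  refine Finset.sum_congr rfl fun i _ => ?_
  rw [Algebra.smul_def, map_mul, PowerBasis.basis_eq_pow, map_pow, eq_ratCast, map_ratCast]
  rfl

/-- A finite set of positive integral elements whose sums contain `γ β ^ M` for every positive
integral `γ` and all large `M`. -/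
theorem cone (h1 : 1 < β) (hint : IsIntegral ℤ β) (hq : IsIntegral ℚ β)
    (hP : ∀ z ∈ (minpoly ℤ β).aroots ℂ, z ≠ (β : ℂ) → ‖z‖ < β) :
    ∃ E : Finset ℝ, (∀ e ∈ E, 0 < e ∧ ∃ γ : ℚ⟮β⟯, Intg hq γ ∧ (γ : ℝ) = e) ∧
      ∀ γ : ℚ⟮β⟯, Intg hq γ → 0 < (γ : ℝ) →
        ∀ᶠ M : ℕ in atTop, (γ : ℝ) * β ^ M ∈ AddSubmonoid.closure (E : Set ℝ) := by
  classical
  set pb := adjoin.powerBasis hq with hpb
  set g := AdjoinSimple.gen ℚ β with hg
  have b0 : (0 : ℝ) < β := by linarith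
  choose v hv using fun i => coord_lim h1 hint hP (pb.basis.coord i)
  simp only [Module.Basis.coord_apply] at hv
  set W : ℝ := ∑ i : Fin pb.dim, β ^ (i : ℕ) + 1 with hW
  have W1 : 1 ≤ W := by
    have : 0 ≤ ∑ i : Fin pb.dim, β ^ (i : ℕ) := by positivity
    linarith
  have big : Tendsto (fun n : ℕ => β ^ n) atTop atTop := tendsto_pow_atTop_atTop_of_one_lt h1
  have e1 : ∀ᶠ N : ℕ in atTop, ∀ i, |(pb.basis.repr (g ^ N) i : ℝ) / β ^ N - v i| < 1 / (4 * W) := by
    rw [eventually_all]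
    intro i
    have := hv i 1
    simp only [one_mul, OneMemClass.coe_one] at this
    have h := (this.sub_const (v i)).abs
    rw [sub_self, abs_zero] at h
    exact h.eventually (gt_mem_nhds (by positivity))
  obtain ⟨N, hN, hN2⟩ := (e1.and (big.eventually_gt_atTop (4 * W))).exists
  have bN : 0 < β ^ N := by positivity
  set c : ℕ := ⌈β ^ N / (4 * W)⌉₊ + 1 with hc
  have c1 : β ^ N / (4 * W) + 1 ≤ c := by
    have := Nat.le_ceil (β ^ N / (4 * W)); rw [hc]; push_cast; linarith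
  have c2 : c * W < β ^ N := by
    have := Nat.ceil_lt_add_one (show 0 ≤ β ^ N / (4 * W) by positivity)
    have h : (c : ℝ) < β ^ N / (4 * W) + 2 := by rw [hc]; push_cast; linarith
    have h' : (β ^ N / (4 * W) + 2) * W = β ^ N / 4 + 2 * W := by field_simp
    nlinarith
  let f : (Fin pb.dim → ℤ) → ℝ := fun e => β ^ N + ∑ i, e i * β ^ (i : ℕ)
  refine ⟨(Fintype.piFinset fun _ => Finset.Icc (-(c : ℤ)) c).image f, ?_, ?_⟩
  · intro y hy
    obtain ⟨e, he, rfl⟩ := Finset.mem_image.1 hy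
    rw [Fintype.mem_piFinset] at he
    refine ⟨?_, g ^ N + ∑ i, e i * g ^ (i : ℕ), (Intg.pow hint hq N).add ?_, ?_⟩
    · have : -(c * W) ≤ ∑ i, e i * β ^ (i : ℕ) := by
        have h : ∑ i : Fin pb.dim, -(c : ℝ) * β ^ (i : ℕ) ≤ ∑ i, e i * β ^ (i : ℕ) :=
          Finset.sum_le_sum fun i _ => by
            have := (Finset.mem_Icc.1 (he i)).1
            have h' : -(c : ℝ) ≤ e i := by exact_mod_cast this
            gcongr
        rw [← Finset.mul_sum] at h
        have c0 : (0 : ℝ) ≤ c := by positivity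
        rw [hW]; nlinarith
      simp only [f]; linarith
    · exact Finset.sum_induction _ _ (fun a b => Intg.add) (Intg.zero hq)
        fun i _ => (Intg.pow hint hq i).zsmul _
    · simp only [f]; push_cast; rfl
  · intro γ hγ γ0
    set κ : ℝ := γ / β ^ N with hκ
    have κ0 : 0 < κ := by positivity
    have hm : Tendsto (fun M : ℕ => (⌊κ * β ^ M⌋₊ : ℝ) / β ^ M) atTop (𝓝 κ) :=
      (tendsto_nat_floor_mul_div_atTop κ0.le).comp big
    have e2 : ∀ᶠ M : ℕ in atTop, ∀ i, |(pb.basis.repr (γ * g ^ M) i : ℝ) -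
        ⌊κ * β ^ M⌋₊ * pb.basis.repr (g ^ N) i| ≤ c * ⌊κ * β ^ M⌋₊ := by
      rw [eventually_all]
      intro i
      have h := (hm.const_mul (c : ℝ)).sub ((hv i γ).sub (hm.mul_const (pb.basis.repr (g ^ N) i : ℝ))).abs
      have pos : 0 < c * κ - |γ * v i - κ * pb.basis.repr (g ^ N) i| := by
        have e : γ * v i - κ * pb.basis.repr (g ^ N) i
            = -(γ * ((pb.basis.repr (g ^ N) i : ℝ) / β ^ N - v i)) := by
          rw [hκ]; ring
        rw [e, abs_neg, abs_mul, abs_of_pos γ0]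
        have h2 := mul_lt_mul_of_pos_left (hN i) γ0
        have h3 : (γ : ℝ) * (1 / (4 * W)) = β ^ N / (4 * W) * κ := by rw [hκ]; field_simp
        nlinarith
      filter_upwards [h.eventually (lt_mem_nhds pos)] with M hM
      have bM : 0 < β ^ M := by positivity
      rw [div_mul_eq_mul_div _ (β ^ M), ← sub_div, abs_div, abs_of_pos bM, ← mul_div_assoc, ← sub_div] at hM
      have := (div_pos_iff_of_pos_right bM).1 hM
      linarith
    filter_upwards [e2] with M hM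
    set m := ⌊κ * β ^ M⌋₊ with hmd
    have hi : Intg hq (γ * g ^ M - (m : ℤ) * g ^ N) :=
      (hγ.mul hint (Intg.pow hint hq M)).sub ((Intg.pow hint hq N).zsmul m)
    choose s hs using fun i => (IsIntegrallyClosed.isIntegral_iff (R := ℤ) (K := ℚ)).1 (hi i)
    have hs' : ∀ i, (s i : ℝ) = (pb.basis.repr (γ * g ^ M) i : ℝ) - m * pb.basis.repr (g ^ N) i := by
      intro i
      have := hs i
      rw [map_sub, ← zsmul_eq_mul, map_zsmul, Finsupp.sub_apply, Finsupp.smul_apply,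
        zsmul_eq_mul] at this
      have h2 : ((s i : ℚ) : ℝ) = _ := congrArg (fun x : ℚ => (x : ℝ)) this
      push_cast at h2
      exact h2
    have := split_mem (fun i : Fin pb.dim => β ^ (i : ℕ)) (β ^ N) c
      (AddSubmonoid.closure (((Fintype.piFinset fun _ => Finset.Icc (-(c : ℤ)) c).image f :
        Finset ℝ) : Set ℝ))
      (fun e he => AddSubmonoid.subset_closure (Finset.mem_coe.2 (Finset.mem_image.2
        ⟨e, Fintype.mem_piFinset.2 fun i => Finset.mem_Icc.2 (abs_le.1 (he i)), rfl⟩)))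
      m s (fun i => by
        have := hM i
        rw [← hs' i] at this
        exact_mod_cast this)
    convert this using 1
    have a1 := coe_eq_sum hq (γ * g ^ M)
    have a2 := coe_eq_sum hq (g ^ N)
    push_cast at a1 a2
    rw [show ((g : ℚ⟮β⟯) : ℝ) = β from rfl] at a1 a2
    simp only [hs', sub_mul, Finset.sum_sub_distrib, mul_assoc, ← Finset.mul_sum]
    rw [← a1, ← a2]; ring

end Pool.Agent.P.MP_0dc862_nt.Pf
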