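import Pool.Agent.P.MP_0dc862_nt.Pf.Chain

namespace Pool.Agent.P.MP_0dc862_nt.Pf

open Filter Topology IntermediateField

/-- An orbit that meets the value `1` before any digit is subtracted ends in `0`. -/
theorem reach {c B : ℕ → ℝ} (B0 : ∀ n, 0 < B n) (hB : ∀ n, B (n + 1) = B n * c n)
    (hc : ∀ n, 1 < c n) {t : ℕ → ℝ} {i : ℕ} (ht : ∀ n, t (n + 1) = Int.fract (c (i + n) * t n))
    {n0 N : ℕ} (h0 : 0 ≤ t n0) (hN : n0 < N) (h : t n0 * B (i + N) = B (i + n0)) :
    ∀ n ≥ N, t n = 0 := by
  have mono : StrictMono B := strictMono_nat_of_lt_succ fun n => by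
    rw [hB]; exact lt_mul_of_one_lt_right (B0 n) (hc n)
  have key : ∀ n, n0 ≤ n → n < N → t n = t n0 * B (i + n) / B (i + n0) := by
    intro n hn
    induction n, hn using Nat.le_induction with
    | base => intro _; rw [mul_div_cancel_right₀ _ (B0 _).ne']
    | succ n hn ih =>
      intro hlt
      have e : c (i + n) * t n = t n0 * B (i + (n + 1)) / B (i + n0) := by
        rw [ih (by omega), ← add_assoc, hB]; ring
      rw [ht, e, Int.fract_eq_self]
      refine ⟨div_nonneg (mul_nonneg h0 (B0 _).le) (B0 _).le, ?_⟩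
      rw [div_lt_one (B0 _)]
      have t0 : 0 < t n0 := by
        rcases h0.eq_or_lt with h' | h'
        · rw [← h', zero_mul] at h; exact absurd h (B0 _).ne
        · exact h'
      calc t n0 * B (i + (n + 1)) < t n0 * B (i + N) :=
            mul_lt_mul_of_pos_left (mono (by omega)) t0
        _ = _ := h
  intro n hn
  induction n, hn using Nat.le_induction with
  | base =>
    obtain ⟨k, rfl⟩ : ∃ k, N = k + 1 := ⟨N - 1, by omega⟩
    have e : c (i + k) * t k = 1 := by
      rw [key k (by omega) (by omega), ← mul_div_assoc, div_eq_one_iff_eq (B0 _).ne', ← h,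
        ← add_assoc, hB]
      ring
    rw [ht, e, Int.fract_one]
  | succ n _ ih => rw [ht, ih, mul_zero, Int.fract_zero]

theorem main {β : ℝ} {q : ℕ} {a : ℕ → ℝ} (q0 : 0 < q) (ha : ∀ i < q, 1 < a i)
    (haβ : β = ∏ i ∈ Finset.range q, a i) (haK : ∀ i < q, a i ∈ ℚ⟮β⟯) (hint : IsIntegral ℤ β)
    (hP : ∀ z ∈ (minpoly ℤ β).aroots ℂ, z ≠ (β : ℂ) → ‖z‖ < β) (F : Finset ℝ)
    (hF : ∀ x ∈ F, x ∈ ℚ⟮β⟯ ∧ 0 ≤ x ∧ x < 1) :
    ∃ (p : ℕ) (b : ℕ → ℝ), 0 < p ∧ (∀ i < p, 1 < b i) ∧ (∀ i < p, b i ∈ ℚ⟮β⟯) ∧
      (∃ n : ℕ → ℕ, n 0 = 0 ∧ n q = p ∧ ∀ i < q, n i < n (i + 1) ∧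
        a i = ∏ j ∈ Finset.Ico (n i) (n (i + 1)), b j) ∧
      (∀ i < p, ∀ t : ℕ → ℝ, t 0 = 1 → (∀ n, t (n + 1) = Int.fract (b ((i + n) % p) * t n)) →
        ∃ N, ∀ n ≥ N, t n = 0) ∧
      ∀ x ∈ F, ∀ t : ℕ → ℝ, t 0 = x → (∀ n, t (n + 1) = Int.fract (b (n % p) * t n)) →
        ∃ N, ∀ n ≥ N, t n = 0 := by
  classical
  set A : ℕ → ℝ := fun i => ∏ j ∈ Finset.range i, a j with hA
  have As : ∀ i, A (i + 1) = A i * a i := fun i => Finset.prod_range_succ _ _
  have A0 : A 0 = 1 := Finset.prod_range_zero _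
  have Aq : A q = β := haβ.symm
  have A1 : ∀ i ≤ q, 1 ≤ A i := fun i hi => by
    induction i with
    | zero => exact A0.ge
    | succ i ih => rw [As]; nlinarith [ih (by omega), ha i hi]
  have Alt : ∀ i < q, A i < A (i + 1) := fun i hi => by
    rw [As]; nlinarith [A1 i hi.le, ha i hi]
  have Am : ∀ j ≤ q, ∀ i ≤ j, A i ≤ A j := fun j hj => by
    induction j with
    | zero => intro i hi; rw [Nat.le_zero.1 hi]
    | succ j ih =>
      intro i hi
      rcases Nat.lt_or_ge i (j + 1) with h | h
      · exact (ih (by omega) i (by omega)).trans (Alt j hj).le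
      · rw [le_antisymm hi h]
  have A2 : ∀ i < q, 1 < A (i + 1) := fun i hi => (A1 i hi.le).trans_lt (Alt i hi)
  have h1 : 1 < β := by
    have := A2 (q - 1) (by omega)
    rwa [show q - 1 + 1 = q by omega, Aq] at this
  obtain ⟨r, d, d0, dr, dK, ds, dF⟩ := exists_chain h1 hint hP
    (F.filter (0 < ·) ∪ (Finset.range q).image fun i => (A (i + 1))⁻¹) fun x hx => by
      rcases Finset.mem_union.1 hx with hx | hx
      · obtain ⟨hx, x0⟩ := Finset.mem_filter.1 hx
        exact ⟨(hF x hx).1, x0, (hF x hx).2.2⟩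
      · obtain ⟨i, hi, rfl⟩ := Finset.mem_image.1 hx
        have hi := Finset.mem_range.1 hi
        have := A2 i hi
        exact ⟨inv_mem (prod_mem fun j hj => haK j (by have := Finset.mem_range.1 hj; omega)),
          by positivity, inv_lt_one_of_one_lt₀ this⟩
  have b0 : 0 < β := by linarith
  have r0 : 0 < r := by
    rcases Nat.eq_zero_or_pos r with h | h
    · rw [h, d0] at dr; linarith
    · exact h
  have mono : ∀ j ≤ r, ∀ i ≤ j, d i ≤ d j := fun j hj => by
    induction j with
    | zero => intro i hi; rw [Nat.le_zero.1 hi]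
    | succ j ih =>
      intro i hi
      rcases Nat.lt_or_ge i (j + 1) with h | h
      · have := (ds j hj).1
        have := ih (by omega) i (by omega)
        linarith
      · rw [le_antisymm hi h]
  have d1 : ∀ j ≤ r, 1 ≤ d j := fun j hj => d0 ▸ mono j hj 0 (Nat.zero_le _)
  have dβ : ∀ l < r, d l < β := fun l hl => by
    have := (ds l hl).1
    have := mono r le_rfl (l + 1) hl
    linarith
  set b : ℕ → ℝ := fun i => d (r - i) / d (r - (i + 1)) with hb
  have b1 : ∀ i < r, 1 < b i := fun i hi => by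
    have := (ds (r - (i + 1)) (by omega)).1
    rw [show r - (i + 1) + 1 = r - i by omega] at this
    have h := d1 (r - (i + 1)) (by omega)
    simp only [hb]
    rw [one_lt_div (by linarith)]; linarith
  set B : ℕ → ℝ := fun n => ∏ j ∈ Finset.range n, b (j % r) with hBd
  have hB : ∀ n, B (n + 1) = B n * b (n % r) := fun n => Finset.prod_range_succ _ _
  have hc : ∀ n, 1 < b (n % r) := fun n => b1 _ (Nat.mod_lt _ r0)
  have B0 : ∀ n, 0 < B n := fun n => Finset.prod_pos fun j _ => by linarith [hc j]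
  have Bj : ∀ j ≤ r, B j = β / d (r - j) := fun j hj => by
    induction j with
    | zero => simp [hBd, dr, b0.ne']
    | succ j ih =>
      rw [hB, ih (by omega), Nat.mod_eq_of_lt hj]
      have := d1 (r - j) (by omega)
      have := d1 (r - (j + 1)) (by omega)
      simp only [hb]
      field_simp
  have Br : B r = β := by rw [Bj r le_rfl, Nat.sub_self, d0, div_one]
  have Bp : ∀ n, B (n + r) = β * B n := fun n => by
    induction n with
    | zero => rw [zero_add, Br]; simp [hBd]
    | succ n ih => rw [Nat.add_right_comm, hB, hB, ih, Nat.add_mod_right]; ring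
  have Bm : ∀ m n, B (m * r + n) = β ^ m * B n := fun m n => by
    induction m with
    | zero => simp
    | succ m ih => rw [show (m + 1) * r + n = m * r + n + r by ring, Bp, ih]; ring
  refine ⟨r, b, r0, b1, fun i hi => div_mem (dK _ (by omega)) (dK _ (by omega)), ?_,
    fun i hi t t0 ht => ?_, fun x hx t t0 ht => ?_⟩
  · have smono : StrictMono B := strictMono_nat_of_lt_succ fun n => by
      rw [hB]; exact lt_mul_of_one_lt_right (B0 n) (hc n)
    have ex : ∀ i, ∃ n, i ≤ q → n ≤ r ∧ B n = A i := fun i => by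
      rcases i with _ | i
      · exact ⟨0, fun _ => ⟨Nat.zero_le _, by rw [A0]; simp [hBd]⟩⟩
      by_cases hi : i < q
      · obtain ⟨m, l, hl, hm⟩ := dF _ (Finset.mem_union_right _
          (Finset.mem_image_of_mem _ (Finset.mem_range.2 hi)))
        have a1 := A2 i hi
        have a2 : A (i + 1) ≤ β := Aq ▸ Am q le_rfl _ hi
        obtain rfl : m = 0 := by
          by_contra h
          have h2 : β ^ 2 ≤ β ^ (m + 1) := pow_le_pow_right₀ h1.le (by omega)
          have h3 := dβ l hl
          rw [← hm, inv_mul_lt_iff₀ (by linarith)] at h3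
          nlinarith
        refine ⟨r - l, fun _ => ⟨by omega, ?_⟩⟩
        rw [Bj _ (by omega), show r - (r - l) = l by omega, ← hm]
        field_simp
        ring
      · exact ⟨0, fun h => absurd h hi⟩
    choose n hn using ex
    refine ⟨n, smono.injective ?_, smono.injective ?_, fun i hi => ?_⟩
    · rw [(hn 0 (by omega)).2, A0]; simp [hBd]
    · rw [(hn q le_rfl).2, Aq, Br]
    · have e1 := hn i hi.le
      have e2 := hn (i + 1) hi
      have lt : n i < n (i + 1) := smono.lt_iff_lt.1 (by rw [e1.2, e2.2]; exact Alt i hi)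
      refine ⟨lt, ?_⟩
      have e3 := Finset.prod_range_mul_prod_Ico (fun j => b (j % r)) lt.le
      change B _ * _ = B _ at e3
      rw [e1.2, e2.2, As] at e3
      have := A1 i hi.le
      rw [← mul_left_cancel₀ (by linarith) e3]
      exact Finset.prod_congr rfl fun j hj => by
        rw [Nat.mod_eq_of_lt (by have := (Finset.mem_Ico.1 hj).2; omega)]
  · obtain ⟨g0, m, l, hl, hm⟩ := ds (r - (i + 1)) (by omega)
    rw [show r - (i + 1) + 1 = r - i by omega] at g0 hm
    have p1 := d1 (r - (i + 1)) (by omega)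
    have p2 := d1 (r - i) (by omega)
    have p3 := d1 l hl.le
    have g1 : d (r - i) - d (r - (i + 1)) < 1 := by
      by_contra h
      have h2 : β ≤ β ^ (m + 1) := le_self_pow₀ h1.le (by omega)
      have := dβ l hl
      nlinarith
    have t1 : t 1 = (d (r - i) - d (r - (i + 1))) / d (r - (i + 1)) := by
      rw [ht 0, t0, mul_one, add_zero, Nat.mod_eq_of_lt hi, Int.fract_eq_iff]
      refine ⟨div_nonneg g0.le (by linarith), ?_, 1, ?_⟩
      · rw [div_lt_one (by linarith)]; linarith
      · simp only [hb]; field_simp; push_cast; ring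
    have hle : r ≤ (m + 1) * r := Nat.le_mul_of_pos_left _ (by omega)
    refine ⟨(m + 1) * r + (r - l) - i, reach (c := fun n => b (n % r)) B0 hB hc ht (n0 := 1)
      (by rw [t1]; exact div_nonneg g0.le (by linarith)) (by omega) ?_⟩
    rw [show i + ((m + 1) * r + (r - l) - i) = (m + 1) * r + (r - l) by omega, Bm,
      Bj _ (by omega), Bj _ (by omega), show r - (r - l) = l by omega, t1, ← hm]
    field_simp
  · rcases (hF x hx).2.1.eq_or_lt with h | h
    · refine ⟨0, fun n _ => ?_⟩
      induction n with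
      | zero => rw [t0, h]
      | succ n ih => rw [ht, ih (Nat.zero_le _), mul_zero, Int.fract_zero]
    · obtain ⟨m, l, hl, hm⟩ := dF x (Finset.mem_union_left _ (Finset.mem_filter.2 ⟨hx, h⟩))
      have p3 := d1 l hl.le
      refine ⟨m * r + (r - l), reach (c := fun n => b (n % r)) (i := 0) B0 hB hc
        (fun n => by rw [ht, zero_add]) (n0 := 0) (by rw [t0]; exact h.le) (by omega) ?_⟩
      rw [zero_add, zero_add, Bm, Bj _ (by omega), show r - (r - l) = l by omega, t0, ← hm]
      simp only [hBd, Finset.range_zero, Finset.prod_empty]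
      have : 0 < β ^ (m + 1) := by positivity
      field_simp
      ring

end Pool.Agent.P.MP_0dc862_nt.Pf
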